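import Pool.Agent.Lib.H4V.Defs

/-!
# Project H4V (MP_443e5f_co, T, module B-II), chunk A1 (S/M)
-/

open Finset

namespace Pool.Agent.Lib.H4V

open Pool.Agent.H44W (ee TF cut)
open Pool.Agent.Lib.H18V (P2 Cr Vert)

/-- Size of the parameters. PROOF. If `2 n < K M` then no pair `(a, b)` with `a ≥ K`, `b ≥ M` has `a b = x + y ≤ 2 n`, so
all values `P2 K M al be (x + y)` with `x, y ∈ [1, n]` are empty sums and the form is `0`. -/
theorem a1_le (n K M : ℕ) (al be f g W : ℤ → ℂ) (h : TF n (P2 K M al be) W f g ≠ 0) : K * M ≤ 2 * n := by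
  sorry

/-- PROOF. `‖TF‖ ≤ ∑_{x, y ∈ [1, n]} ‖P2 (x + y)‖ ≤ ∑_{x, y} #{(a, b) : a b = x + y}` (the terms of `P2` have norm at most `1`) and, exchanging the
sums, for given `a, b, x` there is at most one `y = a b - x`. So it is at most `K M n`. (`card_filter` as a sum of `if`, `sum_comm`, `sum_ite_eq`.) -/
theorem a1_ge (n K M : ℕ) (al be f g W : ℤ → ℂ) (hal : ∀ z, ‖al z‖ ≤ 1) (hbe : ∀ z, ‖be z‖ ≤ 1) (hf : ∀ z, ‖f z‖ ≤ 1)
    (hg : ∀ z, ‖g z‖ ≤ 1) (hW : ∀ z, ‖W z‖ ≤ 1) : ‖TF n (P2 K M al be) W f g‖ ≤ (K : ℝ) * M * n := by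
  sorry

end Pool.Agent.Lib.H4V
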