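import Pool.Agent.Lib.H4V.Defs

/-!
# Project H4V (MP_443e5f_co, T, module B-II), chunk A2 (S/M)
-/

open Finset

namespace Pool.Agent.Lib.H4V

open Pool.Agent.H44W (ee TF cut)
open Pool.Agent.Lib.H18V (P2 Cr Vert)

/-- The form as a sum over `a, b, x`. PROOF. Unfold `TF` and `P2`; `(∑_{p ∈ (A × B).filter (p.1 * p.2 = x + y)} al p.1 * be p.2)` is
`∑_{a} ∑_{b} if a * b = x + y then al a * be b else 0` (`sum_filter`, `sum_product`). Exchange the sums so that `a, b` are outside; for fixed `a, b, x` the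
sum over `y ∈ [1, n]` of `if a * b = x + y then f x * g y * (al a * be b) * W (x - y) else 0` is `al a * be b * f x * cut n g (a * b - x) * W (2 * x - a * b)`:
only `y = a * b - x` (`sum_ite_eq` after rewriting the condition as `y = a * b - x`; `cut n g` is `0` outside `[1, n]`). For `x ∈ [1, n]` one has
`cut n f x = f x`. -/
theorem a2_exp (n K M : ℕ) (al be f g W : ℤ → ℂ) : TF n (P2 K M al be) W f g =
    ∑ a ∈ Ico (K : ℤ) (2 * K), ∑ b ∈ Ico (M : ℤ) (2 * M), al a * be b *
      ∑ x ∈ Icc (1 : ℤ) n, cut n f x * cut n g (a * b - x) * W (2 * x - a * b) := by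
  sorry

end Pool.Agent.Lib.H4V
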