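import Pool.Agent.Lib.H4V.Defs
import Pool.Agent.Lib.H4V.A2

/-!
# Project H4V (MP_443e5f_co, T, module B-II), chunk A3 (S/M)
-/

open Finset

namespace Pool.Agent.Lib.H4V

open Pool.Agent.H44W (ee TF cut)
open Pool.Agent.Lib.H18V (P2 Cr Vert)

/-- Parity classes. PROOF. Induction on `M'` in `[M, M + M')`, or: `Ico M (2 M)` is the disjoint union of the images of `h ↦ M + 2 h`, `0 ≤ h < (M+1)/2`, and
`h ↦ M + 1 + 2 h`, `0 ≤ h < M/2`. (For example `sum_bij` for the two filters `b - M` even / odd.) -/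
theorem a3_par (M : ℕ) (φ : ℤ → ℂ) : ∑ b ∈ Ico (M : ℤ) (2 * M), φ b =
    ∑ h ∈ Ico (0 : ℤ) ((M + 1) / 2 : ℕ), φ (M + 2 * h) + ∑ h ∈ Ico (0 : ℤ) (M / 2 : ℕ), φ (M + 1 + 2 * h) := by
  sorry

/-- PROOF. `a2_exp` and `a3_par` (for each `a`): the form is the sum of the two forms `Tb` with `(m, b0) = ((M+1)/2, M)` and `(M/2, M + 1)`,
`c h = if h ∈ Ico 0 m then be (b0 + 2 h) else 0`. One of the two has at least half of the norm. `Par`: all inequalities by `omega`. -/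
theorem a3_split (n K M : ℕ) (hn : 1 ≤ n) (hK : 1 ≤ K) (hM : 1 ≤ M) (hKM : K * M ≤ 2 * n) (al be f g W : ℤ → ℂ)
    (hbe : ∀ z, ‖be z‖ ≤ 1) : ∃ m : ℕ, ∃ b0 : ℤ, ∃ c : ℤ → ℂ, Par n K M m b0 c ∧
      ‖TF n (P2 K M al be) W f g‖ ≤ 2 * ‖Tb n K m b0 al c (cut n f) (cut n g) W‖ := by
  sorry

end Pool.Agent.Lib.H4V
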