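import Pool.Agent.Lib.H4V.Defs

/-!
# Project H4V (MP_443e5f_co, T, module B-II), chunk A4 (M)
-/

open Finset

namespace Pool.Agent.Lib.H4V

open Pool.Agent.H44W (ee TF cut)
open Pool.Agent.Lib.H18V (P2 Cr Vert)

/-- `x = X + a h`. PROOF. For `h ∈ [0, m)` and `a ∈ [K, 2K)`: `0 ≤ a h ≤ 2 K (m - 1) ≤ K (M - 1) ≤ 2 n` (nlinarith from `hm`, `hKM`). `sum_shift` with
`φ x = F x * G (a * (b0 + 2 h) - x) * W (2 x - a (b0 + 2 h))`, `t = a h`, `S = Ico (-(2n)) (n + 1)`, `S' = Icc 1 n` (if `φ x ≠ 0` then `x ∈ [1, n]` because `F` is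
supported there); then rewrite the arguments: `a (b0 + 2h) - (X + a h) = a b0 - X + a h`, `2 (X + a h) - a (b0 + 2 h) = 2 X - a b0`. -/
theorem a4_sub {n K M m : ℕ} {b0 : ℤ} {c : ℤ → ℂ} (hp : Par n K M m b0 c) {F G W : ℤ → ℂ} (hF : Bd n F)
    {a h : ℤ} (ha : a ∈ Ico (K : ℤ) (2 * K)) (hh : h ∈ Ico (0 : ℤ) m) :
    ∑ x ∈ Icc (1 : ℤ) n, F x * G (a * (b0 + 2 * h) - x) * W (2 * x - a * (b0 + 2 * h)) =
      ∑ X ∈ Ico (-(2 * n : ℤ)) (n + 1), F (X + a * h) * G (a * b0 - X + a * h) * W (2 * X - a * b0) := by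
  sorry

/-- First Cauchy-Schwarz inequality. PROOF. By `a4_sub` the form is `∑_a ∑_X (al a * W (2 X - a b0)) * ∑_h c h F(X + a h) G(a b0 - X + a h)`
(`mul_sum`, `sum_comm`). `sum_product'` over the pairs `(a, X)`; `cs_card` with `K (3 n + 1) ≤ 4 K n` pairs (`card_Ico_K`, `Int.card_Ico`). -/
theorem a4_cs {n K M m : ℕ} {b0 : ℤ} {c : ℤ → ℂ} (hp : Par n K M m b0 c) {al F G W : ℤ → ℂ} (hF : Bd n F)
    (hal : ∀ z, ‖al z‖ ≤ 1) (hW : ∀ z, ‖W z‖ ≤ 1) :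
    ‖Tb n K m b0 al c F G W‖ ^ 2 ≤ 4 * K * n * U1 n K m b0 c F G := by
  sorry

end Pool.Agent.Lib.H4V
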