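import Pool.Agent.Lib.H4V.Defs

/-!
# Project H4V (MP_443e5f_co, T, module B-II), chunk A5 (M)
-/

open Finset

namespace Pool.Agent.Lib.H4V

open Pool.Agent.H44W (ee TF cut)
open Pool.Agent.Lib.H18V (P2 Cr Vert)

/-- Expansion of the square: `X = u - a h`, `h' = h + j`. PROOF. For each `a`: `‖z‖² = z * conj z` (`Complex.mul_conj'` / `Complex.normSq_eq_norm_sq`), `sum_mul_sum`; exchange the sums so
that `h, h'` are outside: for given `h, h'` in `[0, m)` the sum over `X ∈ Ico (-(2n)) (n+1)` of `c h conj (c h') F(X + a h) conj F(X + a h') G(a b0 - X + a h) conj G(a b0 - X + a h')`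
is, with `u = X + a h` (`sum_shift` as in A4: `0 ≤ a h ≤ 2 n`, `F` supported in `[1, n]`), the sum over `u ∈ [1, n]` of
`c h conj (c h') F u conj F(u + a (h' - h)) G(a (b0 + 2 h) - u) conj G(a (b0 + 2h) - u + a (h' - h))`. Now `pair_shift` (with the `Φ h h'` just written: it vanishes for `h' ∉ [0, m)` because of `czero`):
`h' = h + j`, `j ∈ (-m, m)`. Exchange the sums once more and take `F u conj F(u + a j)` out of the sum over `h` (which is `Sh`). -/
theorem a5_exp {n K M m : ℕ} {b0 : ℤ} {c : ℤ → ℂ} (hp : Par n K M m b0 c) {F G : ℤ → ℂ} (hF : Bd n F) :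
    ((U1 n K m b0 c F G : ℝ) : ℂ) = ∑ j ∈ Ioo (-(m : ℤ)) m, ∑ a ∈ Ico (K : ℤ) (2 * K), ∑ u ∈ Icc (1 : ℤ) n,
      F u * (starRingEnd ℂ) (F (u + a * j)) * Sh m b0 c G j a u := by
  sorry

end Pool.Agent.Lib.H4V
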