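import Pool.Agent.Lib.H4V.Defs
import Pool.Agent.Lib.H4V.A5

/-!
# Project H4V (MP_443e5f_co, T, module B-II), chunk A6 (S/M)
-/

open Finset

namespace Pool.Agent.Lib.H4V

open Pool.Agent.H44W (ee TF cut)
open Pool.Agent.Lib.H18V (P2 Cr Vert)

/-- Second Cauchy-Schwarz inequality. PROOF. `a5_exp`, the sum as a sum over `(Ioo (-m) m ×ˢ Ico K (2K)) ×ˢ Icc 1 n` (`sum_product'`), `cs_card`; the number of triples is
`(2 m - 1) K n ≤ 2 m K n` (`Int.card_Ioo`, `card_Ico_K`, `card_Icc_n`); `U1 ≥ 0`, so `‖(U1 : ℂ)‖² = U1²`. -/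
theorem a6_cs {n K M m : ℕ} {b0 : ℤ} {c : ℤ → ℂ} (hp : Par n K M m b0 c) {F G : ℤ → ℂ} (hF : Bd n F) :
    U1 n K m b0 c F G ^ 2 ≤ 2 * m * K * n * U2 n K m b0 c G := by
  sorry

end Pool.Agent.Lib.H4V
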