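import Pool.Agent.Lib.H4V.Defs

/-!
# Project H4V (MP_443e5f_co, T, module B-II), chunk A7 (M)
-/

open Finset

namespace Pool.Agent.Lib.H4V

open Pool.Agent.H44W (ee TF cut)
open Pool.Agent.Lib.H18V (P2 Cr Vert)

/-- The sum over `u` with two values of `h`. PROOF. `sum_refl` with `φ v = G v * conj (G (v + a j)) * conj (G (v + a (2 l))) * G (v + a j + a (2 l))`, `t = a (b0 + 2 h1)`, `S = Icc (-n) (8n)`, `S' = Icc 1 n`:
if `φ v ≠ 0` then `v ∈ [1, n]` (support of `G`) and `t - v ∈ [-n, 8n]`, because `0 ≤ t ≤ 2 K * 2 M ≤ 8 n` (`hb0`, `hb1`, `hm`, `h1 < m`, `hKM`). Here `h2 = h1 + l`: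
`a (b0 + 2 h2) - u = (a (b0 + 2 h1) - u) + a (2 l)`. -/
theorem a7_v {n K M m : ℕ} {b0 : ℤ} {c : ℤ → ℂ} (hp : Par n K M m b0 c) {G : ℤ → ℂ} (hG : Bd n G)
    {a h1 h2 : ℤ} (ha : a ∈ Ico (K : ℤ) (2 * K)) (hh : h1 ∈ Ico (0 : ℤ) m) (j : ℤ) :
    ∑ u ∈ Icc (-(n : ℤ)) (8 * n), G (a * (b0 + 2 * h1) - u) * (starRingEnd ℂ) (G (a * (b0 + 2 * h1) - u + a * j)) *
      ((starRingEnd ℂ) (G (a * (b0 + 2 * h2) - u)) * G (a * (b0 + 2 * h2) - u + a * j)) =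
      ∑ v ∈ Icc (1 : ℤ) n, G v * (starRingEnd ℂ) (G (v + a * j)) * (starRingEnd ℂ) (G (v + a * (2 * (h2 - h1)))) *
        G (v + a * j + a * (2 * (h2 - h1))) := by
  sorry

/-- PROOF. Extend the sum over `u ∈ [1, n]` in `U2` to `u ∈ [-n, 8n]` (nonnegative terms: `sum_le_sum_of_subset_of_nonneg`). For each `j`: `∑_a ∑_u ‖Sh‖²` as a complex number is
`∑_a ∑_u ∑_{h1, h2} (c h1 conj (c (h1 + j))) conj (c h2 conj (c (h2 + j))) G(..) conj G(..) conj G(..) G(..)`; exchange: `∑_{h1, h2} coefficient * ∑_a ∑_u ..`, and the inner double sum is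
`nj n K G j (2 (h2 - h1))` by `a7_v`. The coefficients have norm at most `1`: triangle inequality. -/
theorem a7_exp {n K M m : ℕ} {b0 : ℤ} {c : ℤ → ℂ} (hp : Par n K M m b0 c) {G : ℤ → ℂ} (hG : Bd n G) :
    U2 n K m b0 c G ≤ ∑ j ∈ Ioo (-(m : ℤ)) m, ∑ h1 ∈ Ico (0 : ℤ) m, ∑ h2 ∈ Ico (0 : ℤ) m, ‖nj n K G j (2 * (h2 - h1))‖ := by
  sorry

end Pool.Agent.Lib.H4V
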