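import Pool.Agent.Lib.H4V.Defs

/-!
# Project H4V (MP_443e5f_co, T, module B-II), chunk A8 (S/M)
-/

open Finset

namespace Pool.Agent.Lib.H4V

open Pool.Agent.H44W (ee TF cut)
open Pool.Agent.Lib.H18V (P2 Cr Vert)

/-- PROOF. For every `j`: for every `h1 ∈ [0, m)` the map `h2 ↦ 2 (h2 - h1)` is injective from `[0, m)` to `Ioo (-M) M` (`|2 (h2 - h1)| ≤ 2 (m - 1) ≤ M - 1`), so
`∑_{h2} A j (2 (h2 - h1)) ≤ ∑_{l ∈ Ioo (-M) M} A j l` (`sum_image` and `sum_le_sum_of_subset_of_nonneg`); there are `m` values `h1`. Finally `Ioo (-m) m ⊆ Ioo (-M) M` (`m ≤ M` from `2 m ≤ M + 1`, `1 ≤ M`). -/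
theorem a8_sum (M m : ℕ) (hM : 1 ≤ M) (hm : 2 * m ≤ M + 1) (A : ℤ → ℤ → ℝ) (hA : ∀ j l, 0 ≤ A j l) :
    ∑ j ∈ Ioo (-(m : ℤ)) m, ∑ h1 ∈ Ico (0 : ℤ) m, ∑ h2 ∈ Ico (0 : ℤ) m, A j (2 * (h2 - h1)) ≤
      m * ∑ j ∈ Ioo (-(M : ℤ)) M, ∑ l ∈ Ioo (-(M : ℤ)) M, A j l := by
  sorry

end Pool.Agent.Lib.H4V
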