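import Pool.Agent.Lib.H4V.Defs
import Pool.Agent.Lib.H4V.A1
import Pool.Agent.Lib.H4V.A3
import Pool.Agent.Lib.H4V.A4
import Pool.Agent.Lib.H4V.A6
import Pool.Agent.Lib.H4V.A7
import Pool.Agent.Lib.H4V.A8

/-!
# Project H4V (MP_443e5f_co, T, module B-II), chunk A9 (S/M)
-/

open Finset

namespace Pool.Agent.Lib.H4V

open Pool.Agent.H44W (ee TF cut)
open Pool.Agent.Lib.H18V (P2 Cr Vert)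

/-- (S1). PROOF. `TF ≠ 0` (its norm is at least `n²/D > 0`), so `K M ≤ 2 n` (`a1_le`). `a3_split` gives `m, b0, c` with `‖Tb‖ ≥ n²/(2D)`. `a4_cs`: `U1 ≥ n³/(16 D² K)`. `a6_cs` with `m ≤ M`:
`U2 ≥ U1²/(2 M K n) ≥ n^5/(512 D⁴ K³ M)`. `a7_exp`, `a8_sum`: `∑_{j, l} ‖nj‖ ≥ U2/m ≥ n^5/(512 D⁴ K³ M²)`. Cauchy-Schwarz (`sq_sum_le_card_mul_sum_sq` for the product set, at most `4 M²` pairs):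
`∑ ‖nj‖² ≥ n^10/(2^20 D^8 K^6 M^6)` and `(K M)^6 ≤ 64 n^6`. (If `m = 0` then `Tb = 0`, impossible.) -/
theorem a9_S1 (D : ℝ) (hD : 2 ≤ D) (n K M : ℕ) (hn : 1 ≤ n) (hK : 1 ≤ K) (hM : 1 ≤ M) (al be f g W : ℤ → ℂ)
    (hal : ∀ z, ‖al z‖ ≤ 1) (hbe : ∀ z, ‖be z‖ ≤ 1) (hf : ∀ z, ‖f z‖ ≤ 1) (hg : ∀ z, ‖g z‖ ≤ 1) (hW : ∀ z, ‖W z‖ ≤ 1)
    (h : (n : ℝ) ^ 2 / D ≤ ‖TF n (P2 K M al be) W f g‖) :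
    K * M ≤ 2 * n ∧ (n : ℝ) ^ 4 / (2 ^ 26 * D ^ 8) ≤
      ∑ j ∈ Ioo (-(M : ℤ)) M, ∑ l ∈ Ioo (-(M : ℤ)) M, ‖nj n K (cut n g) j l‖ ^ 2 := by
  sorry

end Pool.Agent.Lib.H4V
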