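import Pool.Agent.Lib.H4V.Defs

/-!
# Project H4V (MP_443e5f_co, T, module B-II), chunk B1 (M)
-/

open Finset

namespace Pool.Agent.Lib.H4V

open Pool.Agent.H44W (ee TF cut)
open Pool.Agent.Lib.H18V (P2 Cr Vert)

/-- Finite Fourier analysis modulo `4 M`. PROOF. `P = 4 M`, `A u = ∑_{j ∈ Ioo (-M) M} G j ee(u j / P)`, `B u = ∑_{i ∈ Ico (-2M) (2M)} G i ee(u i / P)`. Then
`∑_{u < P} B u * conj (A u) * conj (A u) = P * ∑_{j, l} conj (G j) conj (G l) G (j + l)`: expand, exchange, `H81E.ee_orth` (`Pool.Agent.H81E.ee_orth l hl m`: the sum over `u < P` of `ee(u (i - j - l) / P)` is `P` if `P ∣ i - j - l` and `0` otherwise;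
`|i - j - l| < 4 M = P`, so only `i = j + l`, which is in `Ico (-2M) (2M)`; `ee_add`, `ee_neg` for the product of the exponentials). So
`P ‖∑_{j, l}‖ ≤ max_u ‖B u‖ * ∑_u ‖A u‖²` and `∑_u ‖A u‖² = P ∑_j ‖G j‖² ≤ P * 2 M` (`Pool.Agent.H81E.parseval P hP (Ioo (-M) M) .. G`). Take `u` with the largest `‖B u‖` (`exists_max_image` on `range P`) and
`th = u / P` (`ee (i * th) = ee (u * i / P)` by `ring_nf` in the argument). -/
theorem b1_four (M : ℕ) (hM : 1 ≤ M) (G : ℤ → ℂ) (hG : ∀ i, ‖G i‖ ≤ 1) : ∃ th : ℝ,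
    ‖∑ j ∈ Ioo (-(M : ℤ)) M, ∑ l ∈ Ioo (-(M : ℤ)) M, (starRingEnd ℂ) (G j) * (starRingEnd ℂ) (G l) * G (j + l)‖ ≤
      2 * M * ‖∑ i ∈ Ico (-(2 * M : ℤ)) (2 * M), G i * ee (i * th)‖ := by
  sorry

end Pool.Agent.Lib.H4V
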