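import Pool.Agent.Lib.H4V.Defs
import Pool.Agent.Lib.H4V.B1

/-!
# Project H4V (MP_443e5f_co, T, module B-II), chunk B2 (M)
-/

open Finset

namespace Pool.Agent.Lib.H4V

open Pool.Agent.H44W (ee TF cut)
open Pool.Agent.Lib.H18V (P2 Cr Vert)

/-- PROOF. `nj n K G j l * conj (nj n K G j l)` is the sum over `a, a' ∈ [K, 2K)`, `v, v' ∈ [1, n]` of `Gf 0 * conj (Gf j) * conj (Gf l) * Gf (j + l)`, `Gf i = G (v + a i) conj G (v' + a' i)` (`sum_mul_sum`, `map_sum`; each term by `ring` after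
`v + a * (j + l) = v + a j + a l`). Exchange the sums: `∑_{j,l} ‖nj‖² = ∑_{a,v,a',v'} Gf 0 * ∑_{j,l} conj (Gf j) conj (Gf l) Gf (j + l)` as complex numbers; take norms: `‖Gf 0‖ ≤ 1` and `b1_four` for every quadruple (`choose`). -/
theorem b2_sum (n K M : ℕ) (hM : 1 ≤ M) (G : ℤ → ℂ) (hG : ∀ z, ‖G z‖ ≤ 1) : ∃ th : (ℤ × ℤ) × (ℤ × ℤ) → ℝ,
    ∑ j ∈ Ioo (-(M : ℤ)) M, ∑ l ∈ Ioo (-(M : ℤ)) M, ‖nj n K G j l‖ ^ 2 ≤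
      ∑ p ∈ (Ico (K : ℤ) (2 * K) ×ˢ Icc (1 : ℤ) n) ×ˢ (Ico (K : ℤ) (2 * K) ×ˢ Icc (1 : ℤ) n),
        2 * M * ‖∑ i ∈ Ico (-(2 * M : ℤ)) (2 * M), Gf G p.1.1 p.1.2 p.2.1 p.2.2 i * ee (i * th p)‖ := by
  sorry

end Pool.Agent.Lib.H4V
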