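import Pool.Agent.Lib.H4V.Defs
import Pool.Agent.Lib.H4V.B2

/-!
# Project H4V (MP_443e5f_co, T, module B-II), chunk B3 (S/M)
-/

open Finset

namespace Pool.Agent.Lib.H4V

open Pool.Agent.H44W (ee TF cut)
open Pool.Agent.Lib.H18V (P2 Cr Vert)

/-- Popular quadruples. PROOF. Let `s p` be the norm in `b2_sum`, `0 ≤ s p ≤ 4 M`; `∑_p 2 M s p ≥ n⁴/(2^26 D^8)`. With `S` = the quadruples with `s p ≥ M/(2^30 D^8)`: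
`n⁴/(2^26 D^8) ≤ 2 M (4 M #S + K² n² M/(2^30 D^8))` (`card_Ico_K`, `card_Icc_n`; there are `(K n)²` quadruples). As `K M ≤ 2 n`: `K² M² n² ≤ 4 n⁴`, so the last term is at most `8 n⁴/(2^30 D^8) ≤ n⁴/(2^27 D^8)`; so
`8 M² #S ≥ n⁴/(2^27 D^8)` and, again with `K² M² ≤ 4 n²`: `#S ≥ n⁴/(2^30 D^8 M²) ≥ K² n²/(2^32 D^8)`. -/
theorem b3_pop (D : ℝ) (hD : 2 ≤ D) (n K M : ℕ) (hn : 1 ≤ n) (hK : 1 ≤ K) (hM : 1 ≤ M) (hKM : K * M ≤ 2 * n) (G : ℤ → ℂ)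
    (hG : ∀ z, ‖G z‖ ≤ 1) (h : (n : ℝ) ^ 4 / (2 ^ 26 * D ^ 8) ≤
      ∑ j ∈ Ioo (-(M : ℤ)) M, ∑ l ∈ Ioo (-(M : ℤ)) M, ‖nj n K G j l‖ ^ 2) :
    ∃ S ⊆ (Ico (K : ℤ) (2 * K) ×ˢ Icc (1 : ℤ) n) ×ˢ (Ico (K : ℤ) (2 * K) ×ˢ Icc (1 : ℤ) n),
      (K : ℝ) ^ 2 * (n : ℝ) ^ 2 / (2 ^ 32 * D ^ 8) ≤ S.card ∧ ∀ p ∈ S, ∃ th : ℝ, (M : ℝ) / (2 ^ 30 * D ^ 8) ≤
        ‖∑ i ∈ Ico (-(2 * M : ℤ)) (2 * M), Gf G p.1.1 p.1.2 p.2.1 p.2.2 i * ee (i * th)‖ := by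
  sorry

end Pool.Agent.Lib.H4V
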