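import Pool.Agent.Lib.H4V.Defs

/-!
# Project H4V (MP_443e5f_co, T, module B-II), chunk B4 (M)
-/

open Finset

namespace Pool.Agent.Lib.H4V

open Pool.Agent.H44W (ee TF cut)
open Pool.Agent.Lib.H18V (P2 Cr Vert)

/-- Change of the base point: `i = i' - 2 M`, `Y = v - 2 M a`, `Y' = v' - 2 M a'`. PROOF. `sum_shift`-like reindexing (`Ico (-(2M)) (2M)` and `Ico 0 (4M)`, for example `sum_bij'` or `Finset.sum_image`), `Gf G a v a' v' (i' - 2M) = G (Y + a i') conj (G (Y' + a' i'))`,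
`ee ((i' - 2M) th) = ee (- 2 M th) * ee (i' th)` and the first factor has norm `1` (`Pool.Agent.H81E.norm_ee`, `ee_add`). -/
theorem b4_cr (n M : ℕ) (G : ℤ → ℂ) (k k' : ℕ) (v v' : ℤ) (th : ℝ) :
    ‖∑ i ∈ Ico (-(2 * M : ℤ)) (2 * M), Gf G k v k' v' i * ee (i * th)‖ =
      ‖Cr G (fun i => G (v' - 2 * M * k' + k' * i)) (4 * M) k (v - 2 * M * k) th‖ := by
  sorry

/-- The set `E`. PROOF. `E` is the image of `S` under `((a, v), (a', v')) ↦ ((a.toNat, v - 2 M a), (a'.toNat, v' - 2 M a'))`, which is injective on `S` (`a, a' ≥ 0`); `card_image_of_injOn`. In `Vert K (16 n)`: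
`K ≤ a.toNat < 2K`, and `v - 2 M a ≥ 1 - 4 K M ≥ 1 - 8 n ≥ -16 n`, `< 16 n`. The correlation: `b4_cr`. -/
theorem b4_set (n K M : ℕ) (hn : 1 ≤ n) (hKM : K * M ≤ 2 * n) (G : ℤ → ℂ) (c1 c2 : ℝ)
    (h : ∃ S ⊆ (Ico (K : ℤ) (2 * K) ×ˢ Icc (1 : ℤ) n) ×ˢ (Ico (K : ℤ) (2 * K) ×ˢ Icc (1 : ℤ) n),
      c1 ≤ S.card ∧ ∀ p ∈ S, ∃ th : ℝ, c2 ≤
        ‖∑ i ∈ Ico (-(2 * M : ℤ)) (2 * M), Gf G p.1.1 p.1.2 p.2.1 p.2.2 i * ee (i * th)‖) :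
    ∃ E : Finset ((ℕ × ℤ) × (ℕ × ℤ)), E ⊆ Vert K (16 * n) ×ˢ Vert K (16 * n) ∧ c1 ≤ E.card ∧
      ∀ p ∈ E, ∃ th : ℝ, c2 ≤ ‖Cr G (fun i => G (p.2.2 + p.2.1 * i)) (4 * M) p.1.1 p.1.2 th‖ := by
  sorry

end Pool.Agent.Lib.H4V
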