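import Pool.Agent.Lib.H18V.Defs
import Pool.Agent.Lib.H81E.C3

/-!
# Project H4V (MP_443e5f_co, candidate T, module B, part B-II): definitions for `S12`

From a large bilinear form with a class II kernel to many correlated pairs of progressions.
`G = cut n g`, `F = cut n f`; the kernel is `∑ al a * be b`, `a ∈ [K, 2K)`, `b ∈ [M, 2M)`, `a b = m`.
One parity class of `b` is `b = b0 + 2 h`, `0 ≤ h < m`, and `c h` is `be (b0 + 2 h)` (zero outside `[0, m)`).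
-/

open Finset

namespace Pool.Agent.Lib.H4V

open Pool.Agent.H44W (ee TF cut)

noncomputable section

/-- Bounded by `1` and supported on `[1, n]`. -/
structure Bd (n : ℕ) (F : ℤ → ℂ) : Prop where
  le : ∀ z, ‖F z‖ ≤ 1
  zero : ∀ z, z ∉ Icc (1 : ℤ) n → F z = 0

/-- The parameters of one parity class. -/
structure Par (n K M m : ℕ) (b0 : ℤ) (c : ℤ → ℂ) : Prop where
  hn : 1 ≤ n
  hK : 1 ≤ K
  hM : 1 ≤ M
  hKM : K * M ≤ 2 * n
  hm : 2 * m ≤ M + 1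
  hb0 : (M : ℤ) ≤ b0
  hb1 : b0 + 2 * m ≤ 2 * M + 1
  cle : ∀ h, ‖c h‖ ≤ 1
  czero : ∀ h, h ∉ Ico (0 : ℤ) m → c h = 0

/-- The fourfold correlation with the shifts `a j`, `a l`, summed over `a`. -/
def nj (n K : ℕ) (G : ℤ → ℂ) (j l : ℤ) : ℂ :=
  ∑ a ∈ Ico (K : ℤ) (2 * K), ∑ v ∈ Icc (1 : ℤ) n,
    G v * (starRingEnd ℂ) (G (v + a * j)) * (starRingEnd ℂ) (G (v + a * l)) * G (v + a * j + a * l)

/-- The form for one parity class. -/
def Tb (n K m : ℕ) (b0 : ℤ) (al c F G W : ℤ → ℂ) : ℂ :=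
  ∑ a ∈ Ico (K : ℤ) (2 * K), ∑ h ∈ Ico (0 : ℤ) m, al a * c h *
    ∑ x ∈ Icc (1 : ℤ) n, F x * G (a * (b0 + 2 * h) - x) * W (2 * x - a * (b0 + 2 * h))

/-- After the first use of the Cauchy-Schwarz inequality. -/
def U1 (n K m : ℕ) (b0 : ℤ) (c F G : ℤ → ℂ) : ℝ :=
  ∑ a ∈ Ico (K : ℤ) (2 * K), ∑ X ∈ Ico (-(2 * n : ℤ)) (n + 1),
    ‖∑ h ∈ Ico (0 : ℤ) m, c h * F (X + a * h) * G (a * b0 - X + a * h)‖ ^ 2

/-- The inner sum over `h` after expanding the square. -/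
def Sh (m : ℕ) (b0 : ℤ) (c G : ℤ → ℂ) (j a u : ℤ) : ℂ :=
  ∑ h ∈ Ico (0 : ℤ) m, c h * (starRingEnd ℂ) (c (h + j)) * G (a * (b0 + 2 * h) - u) *
    (starRingEnd ℂ) (G (a * (b0 + 2 * h) - u + a * j))

/-- After the second use of the Cauchy-Schwarz inequality. -/
def U2 (n K m : ℕ) (b0 : ℤ) (c G : ℤ → ℂ) : ℝ :=
  ∑ j ∈ Ioo (-(m : ℤ)) m, ∑ a ∈ Ico (K : ℤ) (2 * K), ∑ u ∈ Icc (1 : ℤ) n, ‖Sh m b0 c G j a u‖ ^ 2

/-- The product of `G` along the first and the conjugate of `G` along the second progression. -/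
def Gf (G : ℤ → ℂ) (a v a' v' i : ℤ) : ℂ := G (v + a * i) * (starRingEnd ℂ) (G (v' + a' * i))

end

/-! ### Tools (proved) -/

theorem bd_cut (n : ℕ) (f : ℤ → ℂ) (hf : ∀ z, ‖f z‖ ≤ 1) : Bd n (cut n f) := by
  constructor
  · intro z
    unfold cut
    split_ifs
    · exact hf z
    · simp
  · intro z hz
    unfold cut
    rw [if_neg hz]

/-- Shift of a finite sum of a function with bounded support. -/
theorem sum_shift {R : Type} [AddCommMonoid R] (φ : ℤ → R) (S S' : Finset ℤ) (t : ℤ)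
    (h : ∀ x, φ x ≠ 0 → x ∈ S' ∧ x - t ∈ S) : ∑ x ∈ S, φ (x + t) = ∑ x ∈ S', φ x := by
  classical
  have h1 : ∑ x ∈ S, φ (x + t) = ∑ x ∈ S.filter (fun x => φ (x + t) ≠ 0), φ (x + t) := by
    rw [sum_filter_ne_zero]
  have h2 : ∑ x ∈ S', φ x = ∑ x ∈ S'.filter (fun x => φ x ≠ 0), φ x := by
    rw [sum_filter_ne_zero]
  rw [h1, h2]
  refine sum_bij' (fun x _ => x + t) (fun x _ => x - t) ?_ ?_ ?_ ?_ ?_
  · intro x hx
    rw [mem_filter] at hx ⊢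
    exact ⟨(h _ hx.2).1, hx.2⟩
  · intro x hx
    rw [mem_filter] at hx ⊢
    exact ⟨(h _ hx.2).2, by rw [sub_add_cancel]; exact hx.2⟩
  · intro x _
    ring
  · intro x _
    ring
  · intro x _
    rfl

/-- Reflection of a finite sum of a function with bounded support. -/
theorem sum_refl {R : Type} [AddCommMonoid R] (φ : ℤ → R) (S S' : Finset ℤ) (t : ℤ)
    (h : ∀ x, φ x ≠ 0 → x ∈ S' ∧ t - x ∈ S) : ∑ x ∈ S, φ (t - x) = ∑ x ∈ S', φ x := by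
  classical
  have h1 : ∑ x ∈ S, φ (t - x) = ∑ x ∈ S.filter (fun x => φ (t - x) ≠ 0), φ (t - x) := by
    rw [sum_filter_ne_zero]
  have h2 : ∑ x ∈ S', φ x = ∑ x ∈ S'.filter (fun x => φ x ≠ 0), φ x := by
    rw [sum_filter_ne_zero]
  rw [h1, h2]
  refine sum_bij' (fun x _ => t - x) (fun x _ => t - x) ?_ ?_ ?_ ?_ ?_
  · intro x hx
    rw [mem_filter] at hx ⊢
    exact ⟨(h _ hx.2).1, hx.2⟩
  · intro x hx
    rw [mem_filter] at hx ⊢
    exact ⟨(h _ hx.2).2, by rw [sub_sub_cancel]; exact hx.2⟩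
  · intro x _
    ring
  · intro x _
    ring
  · intro x _
    rfl

/-- The pairs `(h, h')` in `[0, m)²` according to the difference `j = h' - h`. -/
theorem pair_shift {R : Type} [AddCommMonoid R] (m : ℕ) (Φ : ℤ → ℤ → R)
    (h0 : ∀ h h', h' ∉ Ico (0 : ℤ) m → Φ h h' = 0) :
    ∑ h ∈ Ico (0 : ℤ) m, ∑ h' ∈ Ico (0 : ℤ) m, Φ h h' =
      ∑ j ∈ Ioo (-(m : ℤ)) m, ∑ h ∈ Ico (0 : ℤ) m, Φ h (h + j) := by
  rw [sum_comm (s := Ioo (-(m : ℤ)) m)]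
  refine sum_congr rfl fun h hh => ?_
  rw [mem_Ico] at hh
  have h1 := sum_shift (Φ h) (Ioo (-(m : ℤ)) m) (Ico (0 : ℤ) m) h (by
    intro x hx
    have hx' : x ∈ Ico (0 : ℤ) m := by
      by_contra hc
      exact hx (h0 h x hc)
    refine ⟨hx', ?_⟩
    rw [mem_Ico] at hx'
    rw [mem_Ioo]
    omega)
  rw [← h1]
  refine sum_congr rfl fun j _ => ?_
  rw [add_comm]

/-- The Cauchy-Schwarz inequality with bounded weights. -/
theorem cs_card {ι : Type} (s : Finset ι) (a b : ι → ℂ) (ha : ∀ i ∈ s, ‖a i‖ ≤ 1) :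
    ‖∑ i ∈ s, a i * b i‖ ^ 2 ≤ s.card * ∑ i ∈ s, ‖b i‖ ^ 2 := by
  have h1 : ‖∑ i ∈ s, a i * b i‖ ≤ ∑ i ∈ s, ‖b i‖ := by
    refine (norm_sum_le _ _).trans (sum_le_sum fun i hi => ?_)
    rw [norm_mul]
    exact mul_le_of_le_one_left (norm_nonneg _) (ha i hi)
  have h2 : ‖∑ i ∈ s, a i * b i‖ ^ 2 ≤ (∑ i ∈ s, ‖b i‖) ^ 2 := pow_le_pow_left₀ (norm_nonneg _) h1 2
  exact h2.trans sq_sum_le_card_mul_sum_sq

theorem card_Ico_K (K : ℕ) : (Ico (K : ℤ) (2 * K)).card = K := by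
  rw [Int.card_Ico]
  omega

theorem card_Icc_n (n : ℕ) : (Icc (1 : ℤ) n).card = n := by
  rw [Int.card_Icc]
  omega

end Pool.Agent.Lib.H4V
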