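import Pool.Agent.Lib.H4V.Defs
import Pool.Agent.Lib.H4V.A9
import Pool.Agent.Lib.H4V.B3
import Pool.Agent.Lib.H4V.B4

/-!
# Project H4V (MP_443e5f_co, T, module B-II), chunk S12 (S/M)
-/

open Finset

namespace Pool.Agent.Lib.H4V

open Pool.Agent.H44W (ee TF cut)
open Pool.Agent.Lib.H18V (P2 Cr Vert)

/-- **B-II.** (The statement of `H18V/Top.txt`.) PROOF. `C = 50`. `a9_S1`, `b3_pop`, `b4_set` (`G = cut n g`, `(bd_cut n g hg).le`). `K (4 M) ≤ 8 n ≤ 16 n`. `n²/D ≤ ‖TF‖ ≤ K M n` (`a1_ge`): `n ≤ D K M`, so `16 n ≤ 16 D K M = 4 D K (4 M) ≤ D³ K (4M) ≤ D^50 K (4M)`.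
`K² (16 n)²/D^50 ≤ K² n²/(2^32 D^8)` as `2^40 ≤ D^40 ≤ D^42`; `4 M/D^50 ≤ M/(2^30 D^8)` as `2^32 ≤ D^32 ≤ D^42`. -/
theorem S12 : ∃ C : ℕ, ∀ D : ℝ, 2 ≤ D → ∀ n K M : ℕ, 1 ≤ n → 1 ≤ K → K ≤ M →
    ∀ al be f g W : ℤ → ℂ, (∀ z, ‖al z‖ ≤ 1) → (∀ z, ‖be z‖ ≤ 1) → (∀ z, ‖f z‖ ≤ 1) →
    (∀ z, ‖g z‖ ≤ 1) → (∀ z, ‖W z‖ ≤ 1) → (n : ℝ) ^ 2 / D ≤ ‖TF n (P2 K M al be) W f g‖ →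
    K * (4 * M) ≤ 16 * n ∧ ((16 * n : ℕ) : ℝ) ≤ D ^ C * K * (4 * M : ℕ) ∧
    ∃ E : Finset ((ℕ × ℤ) × (ℕ × ℤ)), E ⊆ Vert K (16 * n) ×ˢ Vert K (16 * n) ∧
      (K : ℝ) ^ 2 * ((16 * n : ℕ) : ℝ) ^ 2 / D ^ C ≤ E.card ∧
      ∀ p ∈ E, ∃ th : ℝ, ((4 * M : ℕ) : ℝ) / D ^ C ≤
        ‖Cr (cut n g) (fun i => cut n g (p.2.2 + p.2.1 * i)) (4 * M) p.1.1 p.1.2 th‖ := by
  sorry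

end Pool.Agent.Lib.H4V
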